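import Mathlib

/-!
General position sets of a graph and the lower general position number.
Geodesic triples are described by distances.
-/

namespace Pool.Agent.Q107.GPm

open SimpleGraph

universe u v

/-- The vertices `x, y, z` lie on a common shortest path (a walk from `a` to `b` whose length is the
distance of `a` and `b`). -/
def OnGeodesic {V : Type u} (G : SimpleGraph V) (x y z : V) : Prop :=
  ∃ (a b : V) (p : G.Walk a b), p.length = G.dist a b ∧
    x ∈ p.support ∧ y ∈ p.support ∧ z ∈ p.support

/-- `S` is a general position set: no three vertices of `S` lie on a common shortest path. -/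
def GenPos {V : Type u} (G : SimpleGraph V) (S : Finset V) : Prop :=
  ∀ x ∈ S, ∀ y ∈ S, ∀ z ∈ S, x ≠ y → y ≠ z → x ≠ z → ¬ OnGeodesic G x y z

/-- `S` is a maximal general position set. -/
def MaxGenPos {V : Type u} (G : SimpleGraph V) (S : Finset V) : Prop :=
  GenPos G S ∧ ∀ T : Finset V, GenPos G T → S ⊆ T → T = S

/-- The lower general position number: the least size of a maximal general position set. -/
noncomputable def gpMinus {V : Type u} (G : SimpleGraph V) : ℕ :=
  sInf {k | ∃ S : Finset V, MaxGenPos G S ∧ S.card = k}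

/-- One of the three vertices is between the other two. -/
def Col {V : Type u} (G : SimpleGraph V) (x y z : V) : Prop :=
  G.dist x y + G.dist y z = G.dist x z ∨ G.dist x z + G.dist y z = G.dist x y ∨
    G.dist x y + G.dist x z = G.dist y z

variable {V : Type u} {G : SimpleGraph V}

theorem geo_mem (hG : G.Connected) {a b x : V} (p : G.Walk a b) (hp : p.length = G.dist a b)
    (hx : x ∈ p.support) :
    ∃ (q : G.Walk a x) (r : G.Walk x b), q.append r = p ∧ q.length = G.dist a x ∧
      r.length = G.dist x b ∧ G.dist a x + G.dist x b = G.dist a b := by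
  classical
  refine ⟨p.takeUntil x hx, p.dropUntil x hx, p.take_spec hx, ?_⟩
  have h1 : (p.takeUntil x hx).length + (p.dropUntil x hx).length = p.length := by
    rw [← Walk.length_append, p.take_spec hx]
  have h2 := dist_le (p.takeUntil x hx)
  have h3 := dist_le (p.dropUntil x hx)
  have h4 := hG.dist_triangle (u := a) (v := x) (w := b)
  omega

theorem geo_pair (hG : G.Connected) {a b x y : V} (p : G.Walk a b) (hp : p.length = G.dist a b)
    (hx : x ∈ p.support) (hy : y ∈ p.support) :
    G.dist a x + G.dist x y = G.dist a y ∨ G.dist a y + G.dist x y = G.dist a x := by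
  obtain ⟨q, r, h1, h2, h3, h4⟩ := geo_mem hG p hp hx
  obtain ⟨_, _, _, _, _, k4⟩ := geo_mem hG p hp hy
  rw [← h1, Walk.mem_support_append_iff] at hy
  rcases hy with hy | hy
  · right
    obtain ⟨_, _, _, _, _, l4⟩ := geo_mem hG q h2 hy
    rw [dist_comm (u := x) (v := y)]
    exact l4
  · left
    obtain ⟨_, _, _, _, _, l4⟩ := geo_mem hG r h3 hy
    omega

theorem onGeodesic_of_add (hG : G.Connected) {x y z : V}
    (h : G.dist x y + G.dist y z = G.dist x z) : OnGeodesic G x y z := by
  obtain ⟨p, hp⟩ := hG.exists_walk_length_eq_dist x y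
  obtain ⟨q, hq⟩ := hG.exists_walk_length_eq_dist y z
  refine ⟨x, z, p.append q, ?_, ?_, ?_, ?_⟩
  · rw [Walk.length_append, hp, hq, h]
  · exact Walk.start_mem_support _
  · rw [Walk.mem_support_append_iff]
    exact Or.inl (Walk.end_mem_support _)
  · exact Walk.end_mem_support _

theorem onGeodesic_iff (hG : G.Connected) (x y z : V) : OnGeodesic G x y z ↔ Col G x y z := by
  constructor
  · rintro ⟨a, b, p, hp, hx, hy, hz⟩
    have h1 := geo_pair hG p hp hx hy
    have h2 := geo_pair hG p hp hy hz
    have h3 := geo_pair hG p hp hx hz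
    unfold Col
    omega
  · rintro (h | h | h)
    · exact onGeodesic_of_add hG h
    · obtain ⟨a, b, p, hp, h1, h2, h3⟩ := onGeodesic_of_add (x := x) (y := z) (z := y) hG
        (by rw [dist_comm (u := z) (v := y)]; exact h)
      exact ⟨a, b, p, hp, h1, h3, h2⟩
    · obtain ⟨a, b, p, hp, h1, h2, h3⟩ := onGeodesic_of_add (x := y) (y := x) (z := z) hG
        (by rw [dist_comm (u := y) (v := x)]; exact h)
      exact ⟨a, b, p, hp, h2, h1, h3⟩

theorem genPos_iff (hG : G.Connected) (S : Finset V) : GenPos G S ↔
    ∀ x ∈ S, ∀ y ∈ S, ∀ z ∈ S, x ≠ y → y ≠ z → x ≠ z → ¬ Col G x y z := by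
  unfold GenPos
  simp only [onGeodesic_iff hG]

theorem Col.swap12 {x y z : V} (h : Col G x y z) : Col G y x z := by
  unfold Col at *
  rw [dist_comm (u := y) (v := x)]
  omega

theorem Col.swap23 {x y z : V} (h : Col G x y z) : Col G x z y := by
  unfold Col at *
  rw [dist_comm (u := z) (v := y)]
  omega

theorem genPos_insert [DecidableEq V] (hG : G.Connected) {S : Finset V} {w : V} (hS : GenPos G S)
    (h : ∀ x ∈ S, ∀ y ∈ S, x ≠ y → x ≠ w → y ≠ w → ¬ Col G w x y) :
    GenPos G (insert w S) := by
  rw [genPos_iff hG] at hS ⊢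
  intro x hx y hy z hz hxy hyz hxz hc
  rw [Finset.mem_insert] at hx hy hz
  rcases hx with rfl | hx
  · have hy' : y ∈ S := hy.resolve_left (fun e => hxy e.symm)
    have hz' : z ∈ S := hz.resolve_left (fun e => hxz e.symm)
    exact h y hy' z hz' hyz (Ne.symm hxy) (Ne.symm hxz) hc
  · rcases hy with rfl | hy
    · have hz' : z ∈ S := hz.resolve_left (fun e => hyz e.symm)
      exact h x hx z hz' hxz hxy (Ne.symm hyz) hc.swap12
    · rcases hz with rfl | hz
      · exact h x hx y hy hxy hxz hyz hc.swap23.swap12
      · exact hS x hx y hy z hz hxy hyz hxz hc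

/-- Distances in a Cartesian product of connected graphs. -/
theorem dist_prod {W : Type v} {H : SimpleGraph W} (hG : G.Connected) (hH : H.Connected)
    (x y : V × W) : (G □ H).dist x y = G.dist x.1 y.1 + H.dist x.2 y.2 := by
  have h := edist_boxProd (G := G) (H := H) x y
  have hGH := hG.boxProd hH
  rw [← (hGH x y).coe_dist_eq_edist, ← (hG x.1 y.1).coe_dist_eq_edist,
    ← (hH x.2 y.2).coe_dist_eq_edist] at h
  exact_mod_cast h

end Pool.Agent.Q107.GPm
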