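import Pool.Agent.Q107.GPm.Main

/-!
The product of a complete graph and `HG n` has a maximal general position set of size `6`.
-/

namespace Pool.Agent.Q107.GPm

open SimpleGraph

def p0 (i : Fin 3) : Fin 6 := ⟨2 * i.val, by omega⟩
def p1 (i : Fin 3) : Fin 6 := ⟨2 * i.val + 1, by omega⟩

theorem p0_ne : ∀ i : Fin 3, p0 i ≠ p1 i := by decide

theorem p_cases : ∀ k : Fin 6, ∃ i : Fin 3, k = p0 i ∨ k = p1 i := by decide

theorem E_p : ∀ i : Fin 3, E (Fin.castAdd 3 (p0 i)) (Fin.castAdd 3 (p1 i)) = 1 ∧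
    E (Fin.castAdd 3 (p1 i)) (Fin.castAdd 3 (p0 i)) = 1 := by decide

theorem E_block : ∀ i : Fin 3, E (Fin.natAdd 6 i) (Fin.castAdd 3 (p0 i)) = 1 ∧
    E (Fin.natAdd 6 i) (Fin.castAdd 3 (p1 i)) = 2 := by decide

/-- Every vertex has distances to some special pair that differ by one. -/
theorem splits {n : ℕ} (h : W n) : ∃ i : Fin 3,
    (HG n).dist h (Sum.inl (p0 i)) + 1 = (HG n).dist h (Sum.inl (p1 i)) ∨
    (HG n).dist h (Sum.inl (p1 i)) + 1 = (HG n).dist h (Sum.inl (p0 i)) := by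
  cases h with
  | inl k =>
    obtain ⟨i, hi | hi⟩ := p_cases k
    · refine ⟨i, Or.inl ?_⟩
      rw [hi, dist_self, dist_eq (fun e => p0_ne i (Sum.inl.inj e))]
      exact (E_p i).1.symm
    · refine ⟨i, Or.inr ?_⟩
      rw [hi, dist_self, dist_eq (fun e => p0_ne i (Sum.inl.inj e).symm)]
      exact (E_p i).2.symm
  | inr q =>
    refine ⟨q.1, Or.inl ?_⟩
    rw [dist_eq (by simp), dist_eq (by simp)]
    have h1 : E (cls (Sum.inr q : W n)) (cls (Sum.inl (p0 q.1) : W n)) = 1 := (E_block q.1).1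
    have h2 : E (cls (Sum.inr q : W n)) (cls (Sum.inl (p1 q.1) : W n)) = 2 := (E_block q.1).2
    rw [h1, h2]

/-- The set of the six vertices. -/
def SS (m n : ℕ) : Finset (Fin (m + 3) × W n) := Finset.univ.image (six m n)

theorem SS_card (m n : ℕ) : (SS m n).card = 6 := by
  unfold SS
  rw [Finset.card_image_of_injective _ (six_inj m n), Finset.card_univ, Fintype.card_fin]

theorem prod_connected (m n : ℕ) : ((⊤ : SimpleGraph (Fin (m + 3))) □ (HG n)).Connected :=
  connected_top.boxProd (connected n)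

theorem SS_genPos (m n : ℕ) : GenPos ((⊤ : SimpleGraph (Fin (m + 3))) □ (HG n)) (SS m n) := by
  rw [genPos_iff (prod_connected m n)]
  intro x hx y hy z hz hxy hyz hxz hc
  unfold SS at hx hy hz
  rw [Finset.mem_image] at hx hy hz
  obtain ⟨a, _, rfl⟩ := hx
  obtain ⟨b, _, rfl⟩ := hy
  obtain ⟨c, _, rfl⟩ := hz
  have hab : a ≠ b := fun e => hxy (by rw [e])
  have hbc : b ≠ c := fun e => hyz (by rw [e])
  have hac : a ≠ c := fun e => hxz (by rw [e])
  unfold Col at hc
  rw [dist_six m n hab, dist_six m n hbc, dist_six m n hac] at hc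
  exact P_not a b c hab hbc hac hc

theorem SS_max (m n : ℕ) : MaxGenPos ((⊤ : SimpleGraph (Fin (m + 3))) □ (HG n)) (SS m n) := by
  refine ⟨SS_genPos m n, ?_⟩
  intro T hT hST
  apply Finset.Subset.antisymm _ hST
  intro w hw
  by_contra hwS
  obtain ⟨i, hi⟩ := splits w.2
  have m0 : six m n (p0 i) ∈ SS m n := Finset.mem_image_of_mem _ (Finset.mem_univ _)
  have m1 : six m n (p1 i) ∈ SS m n := Finset.mem_image_of_mem _ (Finset.mem_univ _)
  have e0 : w ≠ six m n (p0 i) := fun e => hwS (by rw [e]; exact m0)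
  have e1 : w ≠ six m n (p1 i) := fun e => hwS (by rw [e]; exact m1)
  have e2 : six m n (p0 i) ≠ six m n (p1 i) := fun e => p0_ne i (six_inj m n e)
  apply (genPos_iff (prod_connected m n) T).mp hT w hw _ (hST m0) _ (hST m1) e0 e2 e1
  have hf : (six m n (p0 i)).1 = (six m n (p1 i)).1 := by
    apply Fin.ext
    simp only [six, p0, p1]
    omega
  have d2 : ((⊤ : SimpleGraph (Fin (m + 3))) □ (HG n)).dist (six m n (p0 i)) (six m n (p1 i)) = 1 := by
    rw [dist_prod connected_top (connected n), hf, dist_self]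
    have : (HG n).dist (six m n (p0 i)).2 (six m n (p1 i)).2 =
        E (Fin.castAdd 3 (p0 i)) (Fin.castAdd 3 (p1 i)) :=
      dist_eq (fun e => p0_ne i (Sum.inl.inj e))
    rw [this, (E_p i).1]
  have d0 := dist_prod (G := (⊤ : SimpleGraph (Fin (m + 3)))) (H := HG n) connected_top (connected n)
    w (six m n (p0 i))
  have d1 := dist_prod (G := (⊤ : SimpleGraph (Fin (m + 3)))) (H := HG n) connected_top (connected n)
    w (six m n (p1 i))
  rw [← hf] at d1
  have s0 : (six m n (p0 i)).2 = Sum.inl (p0 i) := rfl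
  have s1 : (six m n (p1 i)).2 = Sum.inl (p1 i) := rfl
  rw [s0] at d0
  rw [s1] at d1
  unfold Col
  omega

theorem prod_le (m n : ℕ) : gpMinus ((⊤ : SimpleGraph (Fin (m + 3))) □ (HG n)) ≤ 6 :=
  Nat.sInf_le ⟨SS m n, SS_max m n, SS_card m n⟩

theorem HG_ge (n : ℕ) : n ≤ gpMinus (HG n) := le_gpMinus _ _ (fun _ hS => lower hS)

theorem top_ge (m : ℕ) : m ≤ gpMinus (⊤ : SimpleGraph (Fin (m + 3))) :=
  le_gpMinus _ _ (top_lower m)

end Pool.Agent.Q107.GPm
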