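import Pool.Agent.Q107.GPm.Basic

/-!
The graph `HG n`: six vertices `0,...,5` and three cliques of size `n`.
-/

namespace Pool.Agent.Q107.GPm

open SimpleGraph

/-- Vertices: six special vertices and three blocks of `n` vertices. -/
abbrev W (n : ℕ) : Type := Fin 6 ⊕ (Fin 3 × Fin n)

/-- Class of a vertex: the special vertices have classes `0,...,5`, the blocks `6, 7, 8`. -/
def cls {n : ℕ} : W n → Fin 9
  | Sum.inl i => Fin.castAdd 3 i
  | Sum.inr p => Fin.natAdd 6 p.1

/-- The nonadjacent pairs of classes. -/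
def bad (a b : Fin 9) : Bool :=
  decide ((a.val, b.val) ∈ [(0,4),(0,5),(1,4),(1,5),(1,6),(3,7),(4,7),(5,7),(5,8)]) ||
  decide ((b.val, a.val) ∈ [(0,4),(0,5),(1,4),(1,5),(1,6),(3,7),(4,7),(5,7),(5,8)])

theorem bad_symm : ∀ a b : Fin 9, bad a b = bad b a := by decide

theorem bad_self : ∀ a : Fin 9, bad a a = false := by decide

theorem bad_hub : ∀ a : Fin 9, bad a 2 = false := by decide

/-- The graph: distinct vertices are adjacent unless their classes form a nonadjacent pair. -/
def HG (n : ℕ) : SimpleGraph (W n) where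
  Adj x y := x ≠ y ∧ bad (cls x) (cls y) = false
  symm := ⟨fun x y h => ⟨h.1.symm, by rw [bad_symm]; exact h.2⟩⟩
  loopless := ⟨fun x h => h.1 rfl⟩

/-- The distance of two distinct vertices with given classes. -/
def E (a b : Fin 9) : ℕ := if bad a b then 2 else 1

def hub (n : ℕ) : W n := Sum.inl 2

theorem adj_hub {n : ℕ} {x : W n} (h : x ≠ hub n) : (HG n).Adj x (hub n) :=
  ⟨h, bad_hub _⟩

theorem connected (n : ℕ) : (HG n).Connected := by
  have h : ∀ x : W n, (HG n).Reachable x (hub n) := by
    intro x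
    by_cases hx : x = hub n
    · rw [hx]
    · exact (adj_hub hx).reachable
  have : Nonempty (W n) := ⟨hub n⟩
  exact ⟨fun x y => (h x).trans (h y).symm⟩

theorem dist_eq {n : ℕ} {x y : W n} (h : x ≠ y) : (HG n).dist x y = E (cls x) (cls y) := by
  unfold E
  by_cases hb : bad (cls x) (cls y) = true
  · rw [if_pos hb]
    have hna : ¬ (HG n).Adj x y := fun ha => by
      have := ha.2
      rw [hb] at this
      exact Bool.noConfusion this
    have hx : x ≠ hub n := fun e => by
      apply hna
      rw [e]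
      exact (adj_hub (by rw [← e]; exact h.symm)).symm
    have hy : y ≠ hub n := fun e => by
      apply hna
      rw [e]
      exact adj_hub (by rw [← e]; exact h)
    have h1 := (connected n).one_lt_dist_of_ne_of_not_adj h hna
    have h2 := (connected n).dist_triangle (u := x) (v := hub n) (w := y)
    have h3 : (HG n).dist x (hub n) = 1 := dist_eq_one_iff_adj.mpr (adj_hub hx)
    have h4 : (HG n).dist (hub n) y = 1 := dist_eq_one_iff_adj.mpr (adj_hub hy).symm
    omega
  · rw [if_neg hb]
    exact dist_eq_one_iff_adj.mpr ⟨h, by simpa using hb⟩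

/-- Betweenness in terms of classes. -/
def CC (a b c : Fin 9) : Prop :=
  E a b + E b c = E a c ∨ E a c + E b c = E a b ∨ E a b + E a c = E b c

instance (a b c : Fin 9) : Decidable (CC a b c) := by unfold CC; infer_instance

theorem col_iff {n : ℕ} {x y z : W n} (h1 : x ≠ y) (h2 : y ≠ z) (h3 : x ≠ z) :
    Col (HG n) x y z ↔ CC (cls x) (cls y) (cls z) := by
  unfold Col CC
  rw [dist_eq h1, dist_eq h2, dist_eq h3]

theorem cc_twin : ∀ a b : Fin 9, ¬ CC a a b := by decide

theorem cc_miss : ∀ a b : Fin 6, a ≠ b →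
    ((a.val ≠ 4 ∧ a.val ≠ 5 ∧ b.val ≠ 4 ∧ b.val ≠ 5) → ¬ CC 8 (Fin.castAdd 3 a) (Fin.castAdd 3 b)) ∧
    ((a.val ≠ 0 ∧ a.val ≠ 1 ∧ b.val ≠ 0 ∧ b.val ≠ 1) → ¬ CC 6 (Fin.castAdd 3 a) (Fin.castAdd 3 b)) ∧
    ((a.val ≠ 2 ∧ a.val ≠ 3 ∧ b.val ≠ 2 ∧ b.val ≠ 3) → ¬ CC 7 (Fin.castAdd 3 a) (Fin.castAdd 3 b)) := by
  decide

theorem cc_three : ∀ a b c : Fin 6, (a.val = 0 ∨ a.val = 1) → (b.val = 2 ∨ b.val = 3) →
    (c.val = 4 ∨ c.val = 5) → CC (Fin.castAdd 3 a) (Fin.castAdd 3 b) (Fin.castAdd 3 c) := by
  decide

/-- Every maximal general position set of `HG n` has at least `n` elements. -/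
theorem lower {n : ℕ} {S : Finset (W n)} (hS : MaxGenPos (HG n) S) : n ≤ S.card := by
  classical
  rcases Nat.eq_zero_or_pos n with h0 | hn
  · omega
  have hG := connected n
  obtain ⟨hg, hmax⟩ := hS
  by_cases hP : ∃ p : Fin 3 × Fin n, (Sum.inr p : W n) ∈ S
  · obtain ⟨⟨i, j⟩, hp⟩ := hP
    have key : ∀ j' : Fin n, (Sum.inr (i, j') : W n) ∈ S := by
      intro j'
      by_contra hq
      have hgi : GenPos (HG n) (insert (Sum.inr (i, j')) S) := by
        apply genPos_insert hG hg
        intro x hx y hy hxy hxw hyw hc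
        rw [col_iff hxw.symm hxy hyw.symm] at hc
        by_cases hx1 : x = Sum.inr (i, j)
        · rw [hx1] at hc
          exact cc_twin _ _ hc
        · by_cases hy1 : y = Sum.inr (i, j)
          · rw [hy1] at hc
            have h2 : CC (cls (Sum.inr (i, j') : W n)) (cls (Sum.inr (i, j) : W n)) (cls x) := by
              unfold CC at hc ⊢
              have e : E (cls x) (cls (Sum.inr (i, j) : W n)) =
                  E (cls (Sum.inr (i, j) : W n)) (cls x) := by
                unfold E
                rw [bad_symm]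
              omega
            exact cc_twin _ _ h2
          · have h2 : Col (HG n) (Sum.inr (i, j)) x y := by
              rw [col_iff (Ne.symm hx1) hxy (Ne.symm hy1)]
              exact hc
            exact (genPos_iff hG S).mp hg _ hp x hx y hy (Ne.symm hx1) hxy (Ne.symm hy1) h2
      have h3 := hmax _ hgi (Finset.subset_insert _ _)
      apply hq
      rw [← h3]
      exact Finset.mem_insert_self _ _
    have hinj : Function.Injective (fun j' : Fin n => (Sum.inr (i, j') : W n)) := by
      intro a b hab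
      simpa using hab
    have hsub : Finset.univ.image (fun j' : Fin n => (Sum.inr (i, j') : W n)) ⊆ S := by
      intro x hx
      rw [Finset.mem_image] at hx
      obtain ⟨j', _, rfl⟩ := hx
      exact key j'
    have := Finset.card_le_card hsub
    rw [Finset.card_image_of_injective _ hinj, Finset.card_univ, Fintype.card_fin] at this
    exact this
  · exfalso
    push Not at hP
    have hin : ∀ x ∈ S, ∃ a : Fin 6, x = Sum.inl a := by
      intro x hx
      cases x with
      | inl a => exact ⟨a, rfl⟩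
      | inr p => exact absurd hx (hP p)
    -- one of the three pairs is missed
    have hmiss : (∀ a : Fin 6, (Sum.inl a : W n) ∈ S → a.val ≠ 0 ∧ a.val ≠ 1) ∨
        (∀ a : Fin 6, (Sum.inl a : W n) ∈ S → a.val ≠ 2 ∧ a.val ≠ 3) ∨
        (∀ a : Fin 6, (Sum.inl a : W n) ∈ S → a.val ≠ 4 ∧ a.val ≠ 5) := by
      by_contra hcon
      push Not at hcon
      obtain ⟨⟨a, ha, ha'⟩, ⟨b, hb, hb'⟩, ⟨c, hc, hc'⟩⟩ := hcon
      have ha2 : a.val = 0 ∨ a.val = 1 := by
        by_cases h : a.val = 0
        · exact Or.inl h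
        · exact Or.inr (ha' h)
      have hb2 : b.val = 2 ∨ b.val = 3 := by
        by_cases h : b.val = 2
        · exact Or.inl h
        · exact Or.inr (hb' h)
      have hc2 : c.val = 4 ∨ c.val = 5 := by
        by_cases h : c.val = 4
        · exact Or.inl h
        · exact Or.inr (hc' h)
      have hab : (Sum.inl a : W n) ≠ Sum.inl b := by
        intro e
        have := congrArg Fin.val (Sum.inl.inj e)
        omega
      have hbc : (Sum.inl b : W n) ≠ Sum.inl c := by
        intro e
        have := congrArg Fin.val (Sum.inl.inj e)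
        omega
      have hac : (Sum.inl a : W n) ≠ Sum.inl c := by
        intro e
        have := congrArg Fin.val (Sum.inl.inj e)
        omega
      exact (genPos_iff hG S).mp hg _ ha _ hb _ hc hab hbc hac
        ((col_iff hab hbc hac).mpr (cc_three a b c ha2 hb2 hc2))
    have ext : ∀ i : Fin 3, (∀ a b : Fin 6, (Sum.inl a : W n) ∈ S → (Sum.inl b : W n) ∈ S → a ≠ b →
        ¬ CC (Fin.natAdd 6 i) (Fin.castAdd 3 a) (Fin.castAdd 3 b)) → False := by
      intro i hi
      have hgi : GenPos (HG n) (insert (Sum.inr (i, ⟨0, hn⟩)) S) := by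
        apply genPos_insert hG hg
        intro x hx y hy hxy hxw hyw hc
        rw [col_iff hxw.symm hxy hyw.symm] at hc
        obtain ⟨a, rfl⟩ := hin x hx
        obtain ⟨b, rfl⟩ := hin y hy
        exact hi a b hx hy (fun e => hxy (by rw [e])) hc
      have h3 := hmax _ hgi (Finset.subset_insert _ _)
      apply hP (i, ⟨0, hn⟩)
      rw [← h3]
      exact Finset.mem_insert_self _ _
    rcases hmiss with h | h | h
    · apply ext 0
      intro a b ha hb hab
      exact (cc_miss a b hab).2.1 ⟨(h a ha).1, (h a ha).2, (h b hb).1, (h b hb).2⟩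
    · apply ext 1
      intro a b ha hb hab
      exact (cc_miss a b hab).2.2 ⟨(h a ha).1, (h a ha).2, (h b hb).1, (h b hb).2⟩
    · apply ext 2
      intro a b ha hb hab
      exact (cc_miss a b hab).1 ⟨(h a ha).1, (h a ha).2, (h b hb).1, (h b hb).2⟩

/-- Maximal general position sets exist in finite graphs. -/
theorem exists_max {V : Type*} [Fintype V] (G : SimpleGraph V) : ∃ S, MaxGenPos G S := by
  classical
  have hne : (Finset.univ.filter (fun S : Finset V => GenPos G S)).Nonempty := by
    refine ⟨∅, ?_⟩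
    rw [Finset.mem_filter]
    refine ⟨Finset.mem_univ _, ?_⟩
    intro x hx
    exact absurd hx (Finset.notMem_empty x)
  obtain ⟨S, hS, hmax⟩ := Finset.exists_max_image _ Finset.card hne
  rw [Finset.mem_filter] at hS
  refine ⟨S, hS.2, ?_⟩
  intro T hT hST
  have := hmax T (Finset.mem_filter.mpr ⟨Finset.mem_univ _, hT⟩)
  exact (Finset.eq_of_subset_of_card_le hST this).symm

theorem le_gpMinus {V : Type*} [Fintype V] (G : SimpleGraph V) (k : ℕ)
    (h : ∀ S, MaxGenPos G S → k ≤ S.card) : k ≤ gpMinus G := by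
  unfold gpMinus
  apply le_csInf
  · obtain ⟨S, hS⟩ := exists_max G
    exact ⟨S.card, S, hS, rfl⟩
  · rintro b ⟨S, hS, rfl⟩
    exact h S hS

/-- The complete graph. -/
theorem top_lower (m : ℕ) (S : Finset (Fin (m + 3))) (hS : MaxGenPos (⊤ : SimpleGraph (Fin (m + 3))) S) :
    m ≤ S.card := by
  classical
  have hG : (⊤ : SimpleGraph (Fin (m + 3))).Connected := connected_top
  have hu : GenPos (⊤ : SimpleGraph (Fin (m + 3))) Finset.univ := by
    rw [genPos_iff hG]
    intro x _ y _ z _ h1 h2 h3 hc
    unfold Col at hc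
    rw [dist_top_of_ne h1, dist_top_of_ne h2, dist_top_of_ne h3] at hc
    omega
  have := hS.2 _ hu (Finset.subset_univ S)
  rw [← this, Finset.card_univ, Fintype.card_fin]
  omega

/-- The six vertices of the product. -/
def six (m n : ℕ) (k : Fin 6) : Fin (m + 3) × W n :=
  (⟨k.val / 2, by omega⟩, Sum.inl k)

theorem six_inj (m n : ℕ) : Function.Injective (six m n) := by
  intro a b h
  have := congrArg Prod.snd h
  exact Sum.inl.inj this

/-- Distances in the product in terms of indices. -/
def P (a b : Fin 6) : ℕ :=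
  (if a.val / 2 = b.val / 2 then 0 else 1) + E (Fin.castAdd 3 a) (Fin.castAdd 3 b)

theorem dist_six (m n : ℕ) {a b : Fin 6} (h : a ≠ b) :
    ((⊤ : SimpleGraph (Fin (m + 3))) □ (HG n)).dist (six m n a) (six m n b) = P a b := by
  rw [dist_prod connected_top (connected n)]
  unfold P
  have h2 : (HG n).dist (six m n a).2 (six m n b).2 = E (Fin.castAdd 3 a) (Fin.castAdd 3 b) :=
    dist_eq (fun e => h (Sum.inl.inj e))
  rw [h2]
  congr 1
  by_cases h3 : a.val / 2 = b.val / 2
  · rw [if_pos h3]
    have : (six m n a).1 = (six m n b).1 := by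
      apply Fin.ext
      exact h3
    rw [this, dist_self]
  · rw [if_neg h3]
    apply dist_top_of_ne
    intro e
    exact h3 (congrArg Fin.val e)

theorem P_not : ∀ a b c : Fin 6, a ≠ b → b ≠ c → a ≠ c →
    ¬ (P a b + P b c = P a c ∨ P a c + P b c = P a b ∨ P a b + P a c = P b c) := by
  decide

/-- splitting of the special pairs by classes -/
theorem split : ∀ c : Fin 9, 6 ≤ c.val →
    E c (⟨2 * (c.val - 6), by omega⟩) = 1 ∧ E c (⟨2 * (c.val - 6) + 1, by omega⟩) = 2 := by
  decide

end Pool.Agent.Q107.GPm
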